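import Pool.Agent.U84.AWQ.Stm2

/-!
Project AWQ, package SUM (helper2): clean summands.
-/

set_option autoImplicit false

namespace Pool.Agent.U2.AWQ

open Pool.Agent.R456.CL Pool.Agent.U84.AWQ

universe u

theorem t_SUM : S_SUM.{u} := by
  intro A _ z T hz h1 h2
  obtain ⟨P1, a1, a2, a3, a4, a5, y1, a6, a7, a8, a9⟩ := h1
  obtain ⟨P2, b1, b2, b3, b4, b5, y2, b6, b7, b8, b9⟩ := h2
  have hz2 : z * z = z := hz.1.isIdempotentElem.eq
  have hw1 : z * (1 - z) = 0 := by rw [mul_sub, mul_one, hz2, sub_self]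
  have hw2 : (1 - z) * z = 0 := by rw [sub_mul, one_mul, hz2, sub_self]
  have cross1 : ∀ p q : A, p * z = p → (1 - z) * q = q → p * q = 0 := by
    intro p q hp hq
    rw [← hp, ← hq, mul_assoc, ← mul_assoc z, hw1, zero_mul, mul_zero]
  have cross2 : ∀ p q : A, p * (1 - z) = p → z * q = q → p * q = 0 := by
    intro p q hp hq
    rw [← hp, ← hq, mul_assoc, ← mul_assoc (1 - z), hw2, zero_mul, mul_zero]
  have hT : T - (P1 + P2) = (z * T - P1) + ((1 - z) * T - P2) := by
    rw [sub_mul, one_mul]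
    abel
  refine ⟨P1 + P2, one_mul _, mul_one _, ?_, one_mul _, mul_one _, y1 + y2, one_mul _, mul_one _,
    ?_, ?_⟩
  · rw [add_mul, mul_add, mul_add, a3, b3, cross1 P1 P2 a2 b1, cross2 P2 P1 b2 a1, add_zero,
      zero_add]
  · rw [hT, add_mul, mul_add, mul_add, a8, b8, cross1 y1 _ a7 b4, cross2 y2 _ b7 a4, add_zero,
      zero_add, add_sub_cancel]
  · rw [hT, add_mul, mul_add, mul_add, a9, b9, cross1 _ y2 a5 b6, cross2 _ y1 b5 a6, add_zero,
      zero_add, add_sub_cancel]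

end Pool.Agent.U2.AWQ
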